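import Pool.Agent.EVF.StmtsS

/-!
# Squad EVF, row SCL: scaling of nodes
-/

set_option autoImplicit false

namespace Pool.Agent.EVF.H38

open MvPolynomial Matrix Pool.Agent.EVF

section
variable {Ω : Type} [Field Ω]

/-- the substitution `t`, `x_l ↦ w_l x_l` -/
noncomputable def gg (t w : Fin 2 → Ω) :
    MvPolynomial (Fin 2) (MvPolynomial (Fin 2) ℤ) →+* MvPolynomial (Fin 2) Ω :=
  eval₂Hom ((C : Ω →+* MvPolynomial (Fin 2) Ω).comp
    (aeval t : MvPolynomial (Fin 2) ℤ →ₐ[ℤ] Ω).toRingHom) (fun l => C (w l) * X l)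

theorem gg_C (t w : Fin 2 → Ω) (c : MvPolynomial (Fin 2) ℤ) :
    gg t w (C c) = C (aeval t c) := by
  rw [gg, coe_eval₂Hom, eval₂_C]
  rfl

theorem gg_X (t w : Fin 2 → Ω) (l : Fin 2) : gg t w (X l) = C (w l) * X l := by
  rw [gg, coe_eval₂Hom, eval₂_X]

theorem gg_pderiv (t w : Fin 2 → Ω) (i : Fin 2)
    (G : MvPolynomial (Fin 2) (MvPolynomial (Fin 2) ℤ)) :
    pderiv i (gg t w G) = C (w i) * gg t w (pderiv i G) := by
  induction G using MvPolynomial.induction_on with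
  | C c => rw [gg_C, pderiv_C, pderiv_C, map_zero, mul_zero]
  | add p q hp hq => rw [map_add, map_add, hp, hq, map_add, map_add, mul_add]
  | mul_X p j hp =>
    have h0 : pderiv i (p * X j) = pderiv i p * X j + p * pderiv i (X j) := pderiv_mul
    have h1 : pderiv i (gg t w p * (C (w j) * X j)) = pderiv i (gg t w p) * (C (w j) * X j) +
        gg t w p * pderiv i (C (w j) * X j) := pderiv_mul
    have h2 : pderiv i (C (w j) * X j : MvPolynomial (Fin 2) Ω) = pderiv i (C (w j)) * X j +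
        C (w j) * pderiv i (X j) := pderiv_mul
    rw [h0, map_mul (gg t w) p, gg_X, h1, hp, h2, map_add (gg t w), map_mul (gg t w),
      map_mul (gg t w), gg_X, pderiv_C, pderiv_X, pderiv_X]
    by_cases h : j = i
    · subst h
      simp only [Pi.single_eq_same, map_one, zero_mul, zero_add]
      ring
    · rw [Pi.single_eq_of_ne h, Pi.single_eq_of_ne h]
      simp only [map_zero]
      ring

theorem dm {n : ℕ} {R : Type} [CommRing R] (D A : Matrix (Fin n) (Fin n) R) (hD : Dᵀ = D)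
    (v w : Fin n → R) : (D *ᵥ v) ⬝ᵥ (A *ᵥ w) = v ⬝ᵥ ((D * A) *ᵥ w) := by
  rw [← mulVec_mulVec, dotProduct_mulVec v D, ← mulVec_transpose, hD]

/-- evaluation -/
theorem ev_gg (t w z : Fin 2 → Ω) (G : MvPolynomial (Fin 2) (MvPolynomial (Fin 2) ℤ)) :
    ev G t (fun l => w l * z l) = eval z (gg t w G) := by
  induction G using MvPolynomial.induction_on with
  | C c => rw [gg_C, ev, eval₂_C, eval_C]; rfl
  | add p q hp hq =>
    rw [map_add, map_add, ← hp, ← hq]
    unfold ev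
    rw [eval₂_add]
  | mul_X p j hp =>
    rw [map_mul, map_mul, ← hp, gg_X]
    unfold ev
    rw [eval₂_mul, eval₂_X, map_mul, eval_C, eval_X]

/-- weight `n` -/
def Sc (t t' w : Fin 2 → Ω) (n : Ω) (G : MvPolynomial (Fin 2) (MvPolynomial (Fin 2) ℤ)) : Prop :=
  gg t' w G = C n * gg t (fun _ => 1) G

variable {t t' w : Fin 2 → Ω}

theorem Sc.mul {n m : Ω} {G H : MvPolynomial (Fin 2) (MvPolynomial (Fin 2) ℤ)}
    (hG : Sc t t' w n G) (hH : Sc t t' w m H) : Sc t t' w (n * m) (G * H) := by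
  unfold Sc at *
  rw [map_mul, hG, hH, map_mul, map_mul]
  ring

theorem Sc.sub {n : Ω} {G H : MvPolynomial (Fin 2) (MvPolynomial (Fin 2) ℤ)}
    (hG : Sc t t' w n G) (hH : Sc t t' w n H) : Sc t t' w n (G - H) := by
  unfold Sc at *
  rw [map_sub, hG, hH, map_sub]
  ring

theorem Sc.pderiv {n : Ω} {G : MvPolynomial (Fin 2) (MvPolynomial (Fin 2) ℤ)}
    (hG : Sc t t' w n G) (i : Fin 2) (hi : w i ≠ 0) :
    Sc t t' w (n / w i) (MvPolynomial.pderiv i G) := by
  unfold Sc at *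
  have h1 := congrArg (MvPolynomial.pderiv i) hG
  rw [gg_pderiv, pderiv_mul, pderiv_C, zero_mul, zero_add, gg_pderiv, map_one, one_mul] at h1
  have h2 : (C (w i)⁻¹ : MvPolynomial (Fin 2) Ω) * C (w i) = 1 := by
    rw [← map_mul, inv_mul_cancel₀ hi, map_one]
  calc gg t' w (MvPolynomial.pderiv i G)
      = C (w i)⁻¹ * C (w i) * gg t' w (MvPolynomial.pderiv i G) := by rw [h2, one_mul]
    _ = C (w i)⁻¹ * (C n * gg t (fun _ => 1) (MvPolynomial.pderiv i G)) := by
        rw [mul_assoc, h1]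
    _ = _ := by
        rw [← mul_assoc, ← map_mul, div_eq_inv_mul]

theorem Sc.ev {n : Ω} {G : MvPolynomial (Fin 2) (MvPolynomial (Fin 2) ℤ)}
    (hG : Sc t t' w n G) (z : Fin 2 → Ω) :
    EVF.ev G t' (fun l => w l * z l) = n * EVF.ev G t z := by
  have h1 := ev_gg t (fun _ => 1) z G
  have h2 : (fun l => (1 : Ω) * z l) = z := by
    funext l
    rw [one_mul]
  rw [h2] at h1
  rw [ev_gg, hG, map_mul, eval_C, h1]

end

section
variable {Ω : Type} [Field Ω] {μ : Ω}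

/-- the new scale -/
def ww (μ : Ω) (α β : ℕ) : Fin 2 → Ω := ![μ ^ α, μ ^ β]

theorem aeval_scale (t : Fin 2 → Ω) (W : ℕ) {n : ℤ} (c : MvPolynomial (Fin 2) ℤ)
    (hc : ∀ a ∈ c.support, ((W * (a 0 + a 1) : ℕ) : ℤ) = n) :
    aeval (fun l => μ ^ W * t l) c = μ ^ n * aeval t c := by
  rw [aeval_def, aeval_def, eval₂_eq', eval₂_eq', Finset.mul_sum]
  refine Finset.sum_congr rfl fun a ha => ?_
  rw [Fin.prod_univ_two, Fin.prod_univ_two, ← hc a ha, zpow_natCast, mul_pow, mul_pow,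
    ← pow_mul, ← pow_mul, Nat.mul_add, pow_add]
  ring

theorem Sc_of (hμ : μ ≠ 0) (t : Fin 2 → Ω) (W α β : ℕ) {n : ℤ} (G : MvPolynomial (Fin 2) (MvPolynomial (Fin 2) ℤ))
    (hG : ∀ e ∈ G.support, ∀ a ∈ (coeff e G).support,
      ((W * (a 0 + a 1) + α * e 0 + β * e 1 : ℕ) : ℤ) = n) :
    Sc t (fun l => μ ^ W * t l) (ww μ α β) (μ ^ n) G := by
  unfold Sc
  rw [gg, gg, coe_eval₂Hom, coe_eval₂Hom, eval₂_eq', eval₂_eq', Finset.mul_sum]
  refine Finset.sum_congr rfl fun e he => ?_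
  have h1 : aeval (fun l => μ ^ W * t l) (coeff e G) =
      μ ^ (n - ((α * e 0 + β * e 1 : ℕ) : ℤ)) * aeval t (coeff e G) := by
    refine aeval_scale t W (coeff e G) fun a ha => ?_
    rw [← hG e he a ha]
    push_cast
    ring
  have h2 : ((C : Ω →+* MvPolynomial (Fin 2) Ω).comp
      (aeval (fun l => μ ^ W * t l) : MvPolynomial (Fin 2) ℤ →ₐ[ℤ] Ω).toRingHom) (coeff e G) =
      C (μ ^ (n - ((α * e 0 + β * e 1 : ℕ) : ℤ))) * C (aeval t (coeff e G)) := by
    rw [← map_mul, ← h1]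
    rfl
  have h3 : ((C : Ω →+* MvPolynomial (Fin 2) Ω).comp
      (aeval t : MvPolynomial (Fin 2) ℤ →ₐ[ℤ] Ω).toRingHom) (coeff e G) =
      C (aeval t (coeff e G)) := rfl
  rw [h2, h3, Fin.prod_univ_two, Fin.prod_univ_two]
  have h4 : (C (μ ^ n) : MvPolynomial (Fin 2) Ω) =
      C (μ ^ (n - ((α * e 0 + β * e 1 : ℕ) : ℤ))) * (C (ww μ α β 0) ^ e 0 * C (ww μ α β 1) ^ e 1) := by
    rw [← map_pow, ← map_pow, ← map_mul, ← map_mul]
    congr 1
    change _ = _ * ((μ ^ α) ^ e 0 * (μ ^ β) ^ e 1)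
    rw [← pow_mul, ← pow_mul, ← pow_add, ← zpow_natCast, ← zpow_add₀ hμ]
    congr 1
    push_cast
    ring
  rw [h4]
  simp only [map_one, one_mul, mul_pow]
  ring

end

theorem scl : SclStmt := by
  intro r s W M q hM hq Ω _ μ hμ t z hz
  obtain ⟨c, hc⟩ := hq
  set t' : Fin 2 → Ω := fun l => μ ^ W * t l with ht'
  set w : Fin 2 → Ω := ww μ s.α s.β with hw
  have hz' : (![μ ^ s.α * z 0, μ ^ s.β * z 1] : Fin 2 → Ω) = fun l => w l * z l := by
    funext l
    fin_cases l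
    · rfl
    · rfl
  have hw0 : w 0 ≠ 0 := pow_ne_zero _ hμ
  have hw1 : w 1 ≠ 0 := pow_ne_zero _ hμ
  -- the matrix
  set g := gg t' w with hg
  set f := gg t (fun _ => 1) with hf
  set D : Matrix (Fin r) (Fin r) (MvPolynomial (Fin 2) Ω) :=
    diagonal (fun i => C (μ ^ s.m i)) with hD
  have hMM : M.map g = D * M.map f * D := by
    ext1 i j
    rw [hD, mul_diagonal, diagonal_mul, map_apply, map_apply]
    have h1 : Sc t t' w (μ ^ ((s.m i + s.m j : ℕ) : ℤ)) (M i j) := by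
      refine Sc_of hμ t W s.α s.β (M i j) fun e he a ha => ?_
      rw [hM i j e he a ha]
    unfold Sc at h1
    rw [hg, h1, zpow_natCast, pow_add, map_mul]
    ring
  have hdet : Sc t t' w (μ ^ (2 * s.wt)) M.det := by
    unfold Sc
    rw [← hg, ← hf, RingHom.map_det, RingHom.map_det]
    change (M.map g).det = C (μ ^ (2 * s.wt)) * (M.map f).det
    have h2 : D.det = C (μ ^ s.wt) := by
      rw [hD, det_diagonal, ← map_prod, Finset.prod_pow_eq_pow_sum]
      rfl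
    rw [hMM, det_mul, det_mul, h2, two_mul, pow_add, map_mul]
    ring
  have hq' : ∀ i, g (q i) = C (μ ^ c) * (C (μ ^ s.m i) * f (q i)) := by
    intro i
    have h1 : Sc t t' w (μ ^ (c + s.m i)) (q i) := by
      refine Sc_of hμ t W s.α s.β (q i) fun e he a ha => ?_
      rw [hc i e he a ha]
    unfold Sc at h1
    rw [hg, h1, zpow_add₀ hμ, zpow_natCast, map_mul]
    ring
  have hlast : Sc t t' w ((μ ^ c) ^ 2 * (μ ^ s.wt) ^ 2) (q ⬝ᵥ (M.adjugate *ᵥ q)) := by
    unfold Sc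
    rw [← hg, ← hf, RingHom.map_dotProduct, RingHom.map_dotProduct]
    have hv : ∀ h : MvPolynomial (Fin 2) (MvPolynomial (Fin 2) ℤ) →+* MvPolynomial (Fin 2) Ω,
        (fun i => h ((M.adjugate *ᵥ q) i)) = (M.map h).adjugate *ᵥ (fun i => h (q i)) := by
      intro h
      funext i
      rw [RingHom.map_mulVec]
      have h5 : (M.adjugate).map h = (M.map h).adjugate := RingHom.map_adjugate h M
      rw [← h5]
      rfl
    have e1 : (⇑g ∘ (M.adjugate *ᵥ q)) = (M.map g).adjugate *ᵥ (fun i => g (q i)) := hv g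
    have e2 : (⇑f ∘ (M.adjugate *ᵥ q)) = (M.map f).adjugate *ᵥ (fun i => f (q i)) := hv f
    rw [e1, e2]
    have h6 : (fun i => g (q i)) =
        (C (μ ^ c) : MvPolynomial (Fin 2) Ω) • (D *ᵥ (fun i => f (q i))) := by
      funext i
      rw [hq' i, Pi.smul_apply, hD, mulVec_diagonal, smul_eq_mul]
    have h6' : (⇑g ∘ q) =
        (C (μ ^ c) : MvPolynomial (Fin 2) Ω) • (D *ᵥ (fun i => f (q i))) := h6
    have hDt : Dᵀ = D := by rw [hD, diagonal_transpose]
    have h2 : D.det = C (μ ^ s.wt) := by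
      rw [hD, det_diagonal, ← map_prod, Finset.prod_pow_eq_pow_sum]
      rfl
    rw [h6, h6', hMM, adjugate_mul_distrib, adjugate_mul_distrib]
    set v : Fin r → MvPolynomial (Fin 2) Ω := fun i => f (q i) with hv'
    rw [mulVec_smul, dotProduct_smul, smul_dotProduct, mulVec_mulVec]
    have h7 : (D *ᵥ v) ⬝ᵥ ((D.adjugate * ((M.map f).adjugate * D.adjugate) * D) *ᵥ v) =
        D.det * D.det * (v ⬝ᵥ ((M.map f).adjugate *ᵥ v)) := by
      have h8 : (D *ᵥ v) ⬝ᵥ ((D.adjugate * ((M.map f).adjugate * D.adjugate) * D) *ᵥ v) =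
          v ⬝ᵥ ((D * (D.adjugate * ((M.map f).adjugate * D.adjugate) * D)) *ᵥ v) :=
        dm D _ hDt v v
      rw [h8]
      have h9 : D * (D.adjugate * ((M.map f).adjugate * D.adjugate) * D) =
          (D.det * D.det) • (M.map f).adjugate := by
        calc D * (D.adjugate * ((M.map f).adjugate * D.adjugate) * D)
            = (D * D.adjugate) * (M.map f).adjugate * (D.adjugate * D) := by
              simp only [Matrix.mul_assoc]
          _ = _ := by
              rw [mul_adjugate, adjugate_mul, Matrix.smul_mul, Matrix.one_mul, Matrix.smul_mul,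
                Matrix.mul_smul, Matrix.mul_one, smul_smul]
      rw [h9, smul_mulVec, dotProduct_smul, smul_eq_mul]
    rw [h7, h2]
    simp only [smul_eq_mul, map_mul, map_pow]
    change _ = _ * (v ⬝ᵥ _)
    ring
  obtain ⟨z1, z2, z3, z4, z5⟩ := hz
  rw [hz']
  have hp0 := hdet.pderiv 0 hw0
  have hp1 := hdet.pderiv 1 hw1
  have hH := ((hp0.pderiv 0 hw0).mul (hp1.pderiv 1 hw1))
  have hH2 := (hp1.pderiv 0 hw0).mul (hp1.pderiv 0 hw0)
  refine ⟨?_, ?_, ?_, ?_, ?_⟩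
  · rw [hdet.ev, z1, mul_zero]
  · rw [hp0.ev, z2, mul_zero]
  · rw [hp1.ev, z3, mul_zero]
  · have e3 : μ ^ (2 * s.wt) / w 0 / w 0 * (μ ^ (2 * s.wt) / w 1 / w 1) =
        μ ^ (2 * s.wt) / w 1 / w 0 * (μ ^ (2 * s.wt) / w 1 / w 0) := by
      field_simp
    rw [e3] at hH
    have hH3 := hH.sub hH2
    rw [← pow_two (pderiv 0 (pderiv 1 M.det))] at hH3
    rw [hH3.ev]
    refine mul_ne_zero ?_ z4
    have hμ2 : μ ^ (2 * s.wt) ≠ 0 := pow_ne_zero _ hμ
    exact mul_ne_zero (div_ne_zero (div_ne_zero hμ2 hw1) hw0)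
      (div_ne_zero (div_ne_zero hμ2 hw1) hw0)
  · rw [hlast.ev]
    refine mul_ne_zero (mul_ne_zero ?_ ?_) z5
    · exact pow_ne_zero _ (zpow_ne_zero _ hμ)
    · exact pow_ne_zero _ (pow_ne_zero _ hμ)

end Pool.Agent.EVF.H38
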